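import Mathlib

/-!
# A flag complex whose face vector has no real-parameter representation

The flag complex is the clique complex of the graph on `{0, ..., 7}` consisting of the complete
graph on `{0, 1, 2, 3, 4}`, the triangle `{5, 6, 7}`, and the six edges
`05, 15, 26, 36, 07, 47`. Its face vector is `(1, 8, 19, 15, 5, 1)`.

Idea: `c_5 = 1` and `c_4 = 5` force, by the equality case of AM-GM, all parameters of the layers
`5` and `4` to be `1`. What remains for the three lower layers is `c_1 = 6`, `c_2 = 12`, which is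
the equality case of Turan's bound `c_2 ≤ c_1 ^ 2 / 3` and forces all remaining parameters to be
`2`, so that the remaining part of `c_3` would be `8`; but it is `6`.
-/

set_option autoImplicit false

namespace Pool.Agent.Results.MP_1678b7_co.FlagCounterexample

open Finset

/-- A finite simplicial complex on the ground set `V`, given by its finite set of faces: it
contains the empty face and every subset of a face is a face. -/
structure SimpComplex (V : Type) where
  /-- the set of faces -/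
  faces : Finset (Finset V)
  empty_mem : ∅ ∈ faces
  down_closed : ∀ s ∈ faces, ∀ t, t ⊆ s → t ∈ faces

/-- `Δ` is a flag complex: every set of vertices of `Δ` that are pairwise joined by edges of `Δ`
is a face of `Δ`. -/
def IsFlag {V : Type} [DecidableEq V] (Δ : SimpComplex V) : Prop :=
  ∀ s : Finset V, (∀ v ∈ s, {v} ∈ Δ.faces) → (∀ v ∈ s, ∀ w ∈ s, v ≠ w → {v, w} ∈ Δ.faces) →
    s ∈ Δ.faces

/-- `Δ` has dimension `d - 1`: the largest faces of `Δ` have exactly `d` vertices. -/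
def HasDimPred {V : Type} (Δ : SimpComplex V) (d : ℕ) : Prop :=
  (∀ s ∈ Δ.faces, s.card ≤ d) ∧ ∃ s ∈ Δ.faces, s.card = d

/-- `c_j`, the number of faces of `Δ` with exactly `j` vertices. -/
def faceCount {V : Type} (Δ : SimpComplex V) (j : ℕ) : ℕ :=
  (Δ.faces.filter (fun s => s.card = j)).card

/-- The vector `(1, c_1, ..., c_d)` has a real-parameter representation: there are nonnegative
reals `a_j^k` (`1 ≤ j ≤ k ≤ d`; written `a j k`) such that

1. `c_j = ∑ a_{i_1}^{i_j} ⋯ a_{i_j}^{i_j}` over `1 ≤ i_1 < ⋯ < i_j ≤ d`, for `1 ≤ j ≤ d` (the sum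
   is over the `j`-element subsets `S` of `{1, ..., d}`, and `i_j = max S` is `S.sup id`);
2. `a_i^k ≥ a_j^k` whenever `i < j ≤ k`;
3. `a_j^i ≥ a_j^k` whenever `j ≤ i < k ≤ d`. -/
def Representable (d : ℕ) (c : ℕ → ℕ) : Prop :=
  ∃ a : ℕ → ℕ → ℝ,
    (∀ j k, 1 ≤ j → j ≤ k → k ≤ d → 0 ≤ a j k) ∧
    (∀ j, 1 ≤ j → j ≤ d →
      (c j : ℝ) = ∑ S ∈ (Finset.Icc 1 d).powersetCard j, ∏ i ∈ S, a i (S.sup id)) ∧
    (∀ i j k, 1 ≤ i → i < j → j ≤ k → k ≤ d → a j k ≤ a i k) ∧
    (∀ j i k, 1 ≤ j → j ≤ i → i < k → k ≤ d → a j k ≤ a j i)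

/-- The 19 edges of the graph. -/
def edges : Finset (Finset (Fin 8)) :=
  {{0, 1}, {0, 2}, {0, 3}, {0, 4}, {1, 2}, {1, 3}, {1, 4}, {2, 3}, {2, 4}, {3, 4},
    {5, 6}, {5, 7}, {6, 7}, {0, 5}, {1, 5}, {2, 6}, {3, 6}, {0, 7}, {4, 7}}

/-- The cliques of the graph. -/
def cliques : Finset (Finset (Fin 8)) :=
  (Finset.univ : Finset (Fin 8)).powerset.filter
    (fun s => ∀ v ∈ s, ∀ w ∈ s, v ≠ w → ({v, w} : Finset (Fin 8)) ∈ edges)

theorem mem_cliques {s : Finset (Fin 8)} :
    s ∈ cliques ↔ ∀ v ∈ s, ∀ w ∈ s, v ≠ w → ({v, w} : Finset (Fin 8)) ∈ edges := by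
  simp [cliques]

theorem pair_mem_cliques {v w : Fin 8} (hvw : v ≠ w) (h : ({v, w} : Finset (Fin 8)) ∈ cliques) :
    ({v, w} : Finset (Fin 8)) ∈ edges := by
  rw [mem_cliques] at h
  exact h v (by simp) w (by simp) hvw

/-- The clique complex of the graph. -/
def cpx : SimpComplex (Fin 8) where
  faces := cliques
  empty_mem := by rw [mem_cliques]; simp
  down_closed := by
    intro s hs t hts
    rw [mem_cliques] at hs ⊢
    exact fun v hv w hw hvw => hs v (hts hv) w (hts hw) hvw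

theorem cpx_flag : IsFlag cpx := by
  intro s _ h
  change s ∈ cliques
  rw [mem_cliques]
  exact fun v hv w hw hvw => pair_mem_cliques hvw (h v hv w hw hvw)

theorem c1 : (cliques.filter (fun s => s.card = 1)).card = 8 := by decide +kernel
theorem c2 : (cliques.filter (fun s => s.card = 2)).card = 19 := by decide +kernel
theorem c3 : (cliques.filter (fun s => s.card = 3)).card = 15 := by decide +kernel
theorem c4 : (cliques.filter (fun s => s.card = 4)).card = 5 := by decide +kernel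
theorem c5 : (cliques.filter (fun s => s.card = 5)).card = 1 := by decide +kernel
theorem cle : ∀ s ∈ cliques, s.card ≤ 5 := by decide +kernel
theorem cex : ({0, 1, 2, 3, 4} : Finset (Fin 8)) ∈ cliques := by decide +kernel

theorem sum1 (a : ℕ → ℕ → ℝ) :
    ∑ S ∈ (Finset.Icc 1 5).powersetCard 1, ∏ i ∈ S, a i (S.sup id)
      = a 1 1 + a 2 2 + a 3 3 + a 4 4 + a 5 5 := by
  have h : (Finset.Icc 1 5).powersetCard 1 = ({{1}, {2}, {3}, {4}, {5}} : Finset (Finset ℕ)) := by
    decide +kernel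
  rw [h]
  rw [Finset.sum_insert (by decide +kernel)]
  rw [Finset.sum_insert (by decide +kernel)]
  rw [Finset.sum_insert (by decide +kernel)]
  rw [Finset.sum_insert (by decide +kernel)]
  rw [Finset.sum_singleton]
  have s1 : (({1} : Finset ℕ)).sup id = 1 := by decide +kernel
  have s2 : (({2} : Finset ℕ)).sup id = 2 := by decide +kernel
  have s3 : (({3} : Finset ℕ)).sup id = 3 := by decide +kernel
  have s4 : (({4} : Finset ℕ)).sup id = 4 := by decide +kernel
  have s5 : (({5} : Finset ℕ)).sup id = 5 := by decide +kernel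
  rw [s1, s2, s3, s4, s5]
  simp only [Finset.prod_singleton]
  ring

theorem sum2 (a : ℕ → ℕ → ℝ) :
    ∑ S ∈ (Finset.Icc 1 5).powersetCard 2, ∏ i ∈ S, a i (S.sup id)
      = a 1 2 * a 2 2 + a 1 3 * a 3 3 + a 1 4 * a 4 4 + a 1 5 * a 5 5 + a 2 3 * a 3 3 + a 2 4 * a 4 4 + a 2 5 * a 5 5 + a 3 4 * a 4 4 + a 3 5 * a 5 5 + a 4 5 * a 5 5 := by
  have h : (Finset.Icc 1 5).powersetCard 2 = ({{1, 2}, {1, 3}, {1, 4}, {1, 5}, {2, 3}, {2, 4}, {2, 5}, {3, 4}, {3, 5}, {4, 5}} : Finset (Finset ℕ)) := by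
    decide +kernel
  rw [h]
  rw [Finset.sum_insert (by decide +kernel)]
  rw [Finset.sum_insert (by decide +kernel)]
  rw [Finset.sum_insert (by decide +kernel)]
  rw [Finset.sum_insert (by decide +kernel)]
  rw [Finset.sum_insert (by decide +kernel)]
  rw [Finset.sum_insert (by decide +kernel)]
  rw [Finset.sum_insert (by decide +kernel)]
  rw [Finset.sum_insert (by decide +kernel)]
  rw [Finset.sum_insert (by decide +kernel)]
  rw [Finset.sum_singleton]
  have s12 : (({1, 2} : Finset ℕ)).sup id = 2 := by decide +kernel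
  have s13 : (({1, 3} : Finset ℕ)).sup id = 3 := by decide +kernel
  have s14 : (({1, 4} : Finset ℕ)).sup id = 4 := by decide +kernel
  have s15 : (({1, 5} : Finset ℕ)).sup id = 5 := by decide +kernel
  have s23 : (({2, 3} : Finset ℕ)).sup id = 3 := by decide +kernel
  have s24 : (({2, 4} : Finset ℕ)).sup id = 4 := by decide +kernel
  have s25 : (({2, 5} : Finset ℕ)).sup id = 5 := by decide +kernel
  have s34 : (({3, 4} : Finset ℕ)).sup id = 4 := by decide +kernel
  have s35 : (({3, 5} : Finset ℕ)).sup id = 5 := by decide +kernel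
  have s45 : (({4, 5} : Finset ℕ)).sup id = 5 := by decide +kernel
  rw [s12, s13, s14, s15, s23, s24, s25, s34, s35, s45]
  simp [Finset.prod_insert]
  ring

theorem sum3 (a : ℕ → ℕ → ℝ) :
    ∑ S ∈ (Finset.Icc 1 5).powersetCard 3, ∏ i ∈ S, a i (S.sup id)
      = a 1 3 * a 2 3 * a 3 3 + a 1 4 * a 2 4 * a 4 4 + a 1 5 * a 2 5 * a 5 5 + a 1 4 * a 3 4 * a 4 4 + a 1 5 * a 3 5 * a 5 5 + a 1 5 * a 4 5 * a 5 5 + a 2 4 * a 3 4 * a 4 4 + a 2 5 * a 3 5 * a 5 5 + a 2 5 * a 4 5 * a 5 5 + a 3 5 * a 4 5 * a 5 5 := by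
  have h : (Finset.Icc 1 5).powersetCard 3 = ({{1, 2, 3}, {1, 2, 4}, {1, 2, 5}, {1, 3, 4}, {1, 3, 5}, {1, 4, 5}, {2, 3, 4}, {2, 3, 5}, {2, 4, 5}, {3, 4, 5}} : Finset (Finset ℕ)) := by
    decide +kernel
  rw [h]
  rw [Finset.sum_insert (by decide +kernel)]
  rw [Finset.sum_insert (by decide +kernel)]
  rw [Finset.sum_insert (by decide +kernel)]
  rw [Finset.sum_insert (by decide +kernel)]
  rw [Finset.sum_insert (by decide +kernel)]
  rw [Finset.sum_insert (by decide +kernel)]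
  rw [Finset.sum_insert (by decide +kernel)]
  rw [Finset.sum_insert (by decide +kernel)]
  rw [Finset.sum_insert (by decide +kernel)]
  rw [Finset.sum_singleton]
  have s123 : (({1, 2, 3} : Finset ℕ)).sup id = 3 := by decide +kernel
  have s124 : (({1, 2, 4} : Finset ℕ)).sup id = 4 := by decide +kernel
  have s125 : (({1, 2, 5} : Finset ℕ)).sup id = 5 := by decide +kernel
  have s134 : (({1, 3, 4} : Finset ℕ)).sup id = 4 := by decide +kernel
  have s135 : (({1, 3, 5} : Finset ℕ)).sup id = 5 := by decide +kernel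
  have s145 : (({1, 4, 5} : Finset ℕ)).sup id = 5 := by decide +kernel
  have s234 : (({2, 3, 4} : Finset ℕ)).sup id = 4 := by decide +kernel
  have s235 : (({2, 3, 5} : Finset ℕ)).sup id = 5 := by decide +kernel
  have s245 : (({2, 4, 5} : Finset ℕ)).sup id = 5 := by decide +kernel
  have s345 : (({3, 4, 5} : Finset ℕ)).sup id = 5 := by decide +kernel
  rw [s123, s124, s125, s134, s135, s145, s234, s235, s245, s345]
  simp [Finset.prod_insert]
  ring

theorem sum4 (a : ℕ → ℕ → ℝ) :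
    ∑ S ∈ (Finset.Icc 1 5).powersetCard 4, ∏ i ∈ S, a i (S.sup id)
      = a 1 4 * a 2 4 * a 3 4 * a 4 4 + a 1 5 * a 2 5 * a 3 5 * a 5 5 + a 1 5 * a 2 5 * a 4 5 * a 5 5 + a 1 5 * a 3 5 * a 4 5 * a 5 5 + a 2 5 * a 3 5 * a 4 5 * a 5 5 := by
  have h : (Finset.Icc 1 5).powersetCard 4 = ({{1, 2, 3, 4}, {1, 2, 3, 5}, {1, 2, 4, 5}, {1, 3, 4, 5}, {2, 3, 4, 5}} : Finset (Finset ℕ)) := by
    decide +kernel
  rw [h]
  rw [Finset.sum_insert (by decide +kernel)]
  rw [Finset.sum_insert (by decide +kernel)]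
  rw [Finset.sum_insert (by decide +kernel)]
  rw [Finset.sum_insert (by decide +kernel)]
  rw [Finset.sum_singleton]
  have s1234 : (({1, 2, 3, 4} : Finset ℕ)).sup id = 4 := by decide +kernel
  have s1235 : (({1, 2, 3, 5} : Finset ℕ)).sup id = 5 := by decide +kernel
  have s1245 : (({1, 2, 4, 5} : Finset ℕ)).sup id = 5 := by decide +kernel
  have s1345 : (({1, 3, 4, 5} : Finset ℕ)).sup id = 5 := by decide +kernel
  have s2345 : (({2, 3, 4, 5} : Finset ℕ)).sup id = 5 := by decide +kernel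
  rw [s1234, s1235, s1245, s1345, s2345]
  simp [Finset.prod_insert]
  ring

theorem sum5 (a : ℕ → ℕ → ℝ) :
    ∑ S ∈ (Finset.Icc 1 5).powersetCard 5, ∏ i ∈ S, a i (S.sup id)
      = a 1 5 * a 2 5 * a 3 5 * a 4 5 * a 5 5 := by
  have h : (Finset.Icc 1 5).powersetCard 5 = ({{1, 2, 3, 4, 5}} : Finset (Finset ℕ)) := by
    decide +kernel
  rw [h]
  rw [Finset.sum_singleton]
  have s12345 : (({1, 2, 3, 4, 5} : Finset ℕ)).sup id = 5 := by decide +kernel
  rw [s12345]
  simp [Finset.prod_insert]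
  ring

/-- Five positive reals with product `1` and sum at most `5` all equal `1`. -/
theorem all_one {u1 u2 u3 u4 u5 : ℝ} (h1 : 0 < u1) (h2 : 0 < u2) (h3 : 0 < u3) (h4 : 0 < u4)
    (h5 : 0 < u5) (hp : u1 * u2 * u3 * u4 * u5 = 1) (hs : u1 + u2 + u3 + u4 + u5 ≤ 5) :
    u1 = 1 ∧ u2 = 1 ∧ u3 = 1 ∧ u4 = 1 ∧ u5 = 1 := by
  have hl : Real.log u1 + Real.log u2 + Real.log u3 + Real.log u4 + Real.log u5 = 0 := by
    rw [← Real.log_mul (by positivity) (by positivity),
      ← Real.log_mul (by positivity) (by positivity),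
      ← Real.log_mul (by positivity) (by positivity),
      ← Real.log_mul (by positivity) (by positivity), hp, Real.log_one]
  have g1 := Real.log_le_sub_one_of_pos h1
  have g2 := Real.log_le_sub_one_of_pos h2
  have g3 := Real.log_le_sub_one_of_pos h3
  have g4 := Real.log_le_sub_one_of_pos h4
  have g5 := Real.log_le_sub_one_of_pos h5
  refine ⟨?_, ?_, ?_, ?_, ?_⟩
  · by_contra h
    have := Real.log_lt_sub_one_of_pos h1 h
    linarith
  · by_contra h
    have := Real.log_lt_sub_one_of_pos h2 h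
    linarith
  · by_contra h
    have := Real.log_lt_sub_one_of_pos h3 h
    linarith
  · by_contra h
    have := Real.log_lt_sub_one_of_pos h4 h
    linarith
  · by_contra h
    have := Real.log_lt_sub_one_of_pos h5 h
    linarith

/-- Equality case of AM-GM for the fourth elementary symmetric function. -/
theorem all_one' {x1 x2 x3 x4 x5 : ℝ} (h1 : 0 ≤ x1) (h2 : 0 ≤ x2) (h3 : 0 ≤ x3) (h4 : 0 ≤ x4)
    (h5 : 0 ≤ x5) (hp : x1 * x2 * x3 * x4 * x5 = 1)
    (hs : x1 * x2 * x3 * x4 + x1 * x2 * x3 * x5 + x1 * x2 * x4 * x5 + x1 * x3 * x4 * x5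
      + x2 * x3 * x4 * x5 ≤ 5) :
    x1 = 1 ∧ x2 = 1 ∧ x3 = 1 ∧ x4 = 1 ∧ x5 = 1 := by
  have p1 : 0 < x1 := lt_of_le_of_ne h1 (by rintro rfl; norm_num at hp)
  have p2 : 0 < x2 := lt_of_le_of_ne h2 (by rintro rfl; norm_num at hp)
  have p3 : 0 < x3 := lt_of_le_of_ne h3 (by rintro rfl; norm_num at hp)
  have p4 : 0 < x4 := lt_of_le_of_ne h4 (by rintro rfl; norm_num at hp)
  have p5 : 0 < x5 := lt_of_le_of_ne h5 (by rintro rfl; norm_num at hp)
  have e1 : x1⁻¹ = x2 * x3 * x4 * x5 := by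
    field_simp; linarith
  have e2 : x2⁻¹ = x1 * x3 * x4 * x5 := by
    field_simp; linarith
  have e3 : x3⁻¹ = x1 * x2 * x4 * x5 := by
    field_simp; linarith
  have e4 : x4⁻¹ = x1 * x2 * x3 * x5 := by
    field_simp; linarith
  have e5 : x5⁻¹ = x1 * x2 * x3 * x4 := by
    field_simp; linarith
  have := all_one (inv_pos.mpr p1) (inv_pos.mpr p2) (inv_pos.mpr p3) (inv_pos.mpr p4)
    (inv_pos.mpr p5) (by rw [← mul_inv, ← mul_inv, ← mul_inv, ← mul_inv, hp, inv_one])
    (by rw [e1, e2, e3, e4, e5]; linarith)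
  simpa [inv_eq_one] using this

theorem four_one {y1 y2 y3 y4 : ℝ} (h1 : 1 ≤ y1) (h2 : 1 ≤ y2) (h3 : 1 ≤ y3) (h4 : 1 ≤ y4)
    (hp : y1 * y2 * y3 * y4 ≤ 1) : y1 = 1 ∧ y2 = 1 ∧ y3 = 1 ∧ y4 = 1 := by
  have h12 : 1 ≤ y1 * y2 := by nlinarith
  have h34 : 1 ≤ y3 * y4 := by nlinarith
  have hle12 : y1 * y2 ≤ 1 := by nlinarith
  have hle34 : y3 * y4 ≤ 1 := by nlinarith
  refine ⟨?_, ?_, ?_, ?_⟩ <;> nlinarith

theorem final {p q z r s t : ℝ} (hz : 0 ≤ z) (hs : 0 ≤ s)
    (h1 : t + s + z = 6) (h2 : r * s + (p * z + q * z) = 12) (h3 : p * q * z = 6)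
    (hrt : r ≤ t) (hpr : p ≤ r) (hqs : q ≤ s) : False := by
  have a1 : r * s ≤ t * s := mul_le_mul_of_nonneg_right hrt hs
  have a2 : p * z ≤ t * z := mul_le_mul_of_nonneg_right (hpr.trans hrt) hz
  have a3 : q * z ≤ s * z := mul_le_mul_of_nonneg_right hqs hz
  have b : (t - s) ^ 2 + (s - z) ^ 2 + (t - z) ^ 2 ≤ 0 := by nlinarith
  have b1 : t - s = 0 := by
    have : (t - s) ^ 2 ≤ 0 := by nlinarith [sq_nonneg (s - z), sq_nonneg (t - z)]
    exact pow_eq_zero_iff (two_ne_zero) |>.mp (le_antisymm this (sq_nonneg _))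
  have b2 : s - z = 0 := by
    have : (s - z) ^ 2 ≤ 0 := by nlinarith [sq_nonneg (t - s), sq_nonneg (t - z)]
    exact pow_eq_zero_iff (two_ne_zero) |>.mp (le_antisymm this (sq_nonneg _))
  have hs2 : s = 2 := by linarith
  have hz2 : z = 2 := by linarith
  have ht2 : t = 2 := by linarith
  subst hs2 hz2 ht2
  have hq2 : q = 2 := by linarith
  have hp2 : p = 2 := by linarith
  subst hq2 hp2
  norm_num at h3

theorem not_representable : ¬ Representable 5 (faceCount cpx) := by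
  rintro ⟨a, hpos, hc, _, h3⟩
  have e1 := hc 1 (by norm_num) (by norm_num)
  have e2 := hc 2 (by norm_num) (by norm_num)
  have e3 := hc 3 (by norm_num) (by norm_num)
  have e4 := hc 4 (by norm_num) (by norm_num)
  have e5 := hc 5 (by norm_num) (by norm_num)
  rw [sum1, show faceCount cpx 1 = 8 from c1] at e1
  rw [sum2, show faceCount cpx 2 = 19 from c2] at e2
  rw [sum3, show faceCount cpx 3 = 15 from c3] at e3
  rw [sum4, show faceCount cpx 4 = 5 from c4] at e4
  rw [sum5, show faceCount cpx 5 = 1 from c5] at e5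
  push_cast at e1 e2 e3 e4 e5
  -- the layer `5`
  have p15 := hpos 1 5 (by norm_num) (by norm_num) (by norm_num)
  have p25 := hpos 2 5 (by norm_num) (by norm_num) (by norm_num)
  have p35 := hpos 3 5 (by norm_num) (by norm_num) (by norm_num)
  have p45 := hpos 4 5 (by norm_num) (by norm_num) (by norm_num)
  have p55 := hpos 5 5 (by norm_num) (by norm_num) (by norm_num)
  have m1 := h3 1 4 5 (by norm_num) (by norm_num) (by norm_num) (by norm_num)
  have m2 := h3 2 4 5 (by norm_num) (by norm_num) (by norm_num) (by norm_num)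
  have m3 := h3 3 4 5 (by norm_num) (by norm_num) (by norm_num) (by norm_num)
  have m4 := h3 4 4 5 (by norm_num) (by norm_num) (by norm_num) (by norm_num)
  have n1 := p15.trans m1
  have n2 := p25.trans m2
  have n3 := p35.trans m3
  have hmono : a 1 5 * a 2 5 * a 3 5 * a 4 5 ≤ a 1 4 * a 2 4 * a 3 4 * a 4 4 := by
    gcongr
  obtain ⟨x1, x2, x3, x4, x5⟩ := all_one' p15 p25 p35 p45 p55 e5.symm (by linarith)
  rw [x1] at m1
  rw [x2] at m2
  rw [x3] at m3
  rw [x4] at m4
  rw [x1, x2, x3, x4, x5] at e4 e3 e2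
  rw [x5] at e1
  obtain ⟨y1, y2, y3, y4⟩ := four_one m1 m2 m3 m4 (by linarith)
  rw [y1, y2, y3, y4] at e3 e2
  rw [y4] at e1
  exact final (p := a 1 3) (q := a 2 3) (z := a 3 3) (r := a 1 2) (s := a 2 2) (t := a 1 1)
    (hpos 3 3 (by norm_num) (by norm_num) (by norm_num))
    (hpos 2 2 (by norm_num) (by norm_num) (by norm_num))
    (by linarith) (by linarith) (by linarith)
    (h3 1 1 2 (by norm_num) (by norm_num) (by norm_num) (by norm_num))
    (h3 1 2 3 (by norm_num) (by norm_num) (by norm_num) (by norm_num))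
    (h3 2 2 3 (by norm_num) (by norm_num) (by norm_num) (by norm_num))

/-- **Not every face vector of a flag complex has a real-parameter representation.** There is a
flag complex on `8` vertices of dimension `4` (so `d = 5`), with face vector
`(1, 8, 19, 15, 5, 1)`, for which there are no nonnegative reals `a_j^k` (`1 ≤ j ≤ k ≤ 5`)
satisfying conditions 1, 2 and 3. -/
theorem result : ∃ Δ : SimpComplex (Fin 8), IsFlag Δ ∧ HasDimPred Δ 5 ∧
    (faceCount Δ 1 = 8 ∧ faceCount Δ 2 = 19 ∧ faceCount Δ 3 = 15 ∧ faceCount Δ 4 = 5 ∧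
      faceCount Δ 5 = 1) ∧
    ¬ Representable 5 (faceCount Δ) :=
  ⟨cpx, cpx_flag, ⟨cle, {0, 1, 2, 3, 4}, cex, rfl⟩, ⟨c1, c2, c3, c4, c5⟩, not_representable⟩

end Pool.Agent.Results.MP_1678b7_co.FlagCounterexample
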